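import Mathlib
import Pool.Agent.H868R3.GPI.K3Main

/-!
# De Rham-Betti classes on motives of rank one over a CM field (K3 surfaces and hyper-Kähler
varieties of CM type)
-/

set_option linter.unusedSectionVars false
set_option linter.unusedVariables false

namespace Pool.Agent.Results.MP_f11a48_ag.CMRankOne

open NumberField Pool.Agent.H868R3.GPI

/-- The periods of a motive `M` over `ℚbar` of weight zero, with multiplication by the CM field
`E`, whose Betti realization is of dimension one over `E` (and is identified with `E`), and which
has a polarization `M ⊗ M → 1` for which the adjoint of the multiplication by `a` is the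
multiplication by the complex conjugate of `a`. The number `per φ` is the period of a
`φ`-eigenclass in the de Rham realization. The product of the periods belonging to conjugate
embeddings is algebraic, as the polarization is a class on `M ⊗ M`. -/
structure RankOnePeriods (E : Type) [Field E] where
  per : (E →+* ℂ) → ℂ
  ne_zero : ∀ φ, per φ ≠ 0
  polarization : ∀ φ, IsAlgebraic ℚ (per φ * per (ComplexEmbedding.conjugate φ))

/-- A rational multilinear form `f` on `J → E`, in variables indexed by `κ`, is a class on the
tensor power, indexed by `κ`, of the direct sum of the copies of `M` indexed by `J`. It is a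
de Rham-Betti class if it is a linear combination with algebraic coefficients of the tensor
products of the eigenclasses `per φ · φ`. -/
def IsDeRhamBetti {E : Type} [Field E] [NumberField E] (P : RankOnePeriods E) {J κ : Type}
    [Fintype J] [Fintype κ] [DecidableEq κ] (f : (κ → J → E) → ℚ) : Prop :=
  ∃ b : (κ → (Σ _ : J, (E →+* ℂ))) → ℂ, (∀ I, IsAlgebraic ℚ (b I)) ∧
    ∀ v : κ → J → E, ((f v : ℚ) : ℂ) =
      ∑ I, b I * ∏ l, (P.per (I l).2 * (I l).2 (v l (I l).1))

/-- There is a nonempty set `S` of embeddings of `E`, disjoint from its conjugate, such that all
the Galois conjugates of the product, over `φ ∈ S`, of the quotients of the periods of `φ` and of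
its conjugate, are algebraic. -/
def HasSmallRelation {E : Type} [Field E] (P : RankOnePeriods E) : Prop :=
  ∃ S : Finset (E →+* ℂ), S.Nonempty ∧ (∀ φ ∈ S, ComplexEmbedding.conjugate φ ∉ S) ∧
    ∀ σ : ℂ ≃+* ℂ, IsAlgebraic ℚ (∏ φ ∈ S, (P.per ((σ : ℂ →+* ℂ).comp φ) /
      P.per ((σ : ℂ →+* ℂ).comp (ComplexEmbedding.conjugate φ))))

/-- Suppose that the Galois group of the Galois closure of the CM field `E` contains an abelian
subgroup which is transitive on the embeddings of `E` (for example, `E` is abelian, or of degree
twice a prime number, or has a generic Galois group). Then either the periods of `M` satisfy a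
small relation, or all de Rham-Betti classes on all tensor powers of all direct sums of copies of
`M` are linear combinations of products of the pairings `Tr (α x conj y)`. -/
theorem result (E : Type) [Field E] [NumberField E] [IsCMField E] (hE : AbTrans E)
    (P : RankOnePeriods E) :
    HasSmallRelation P ∨
    ∀ (J κ : Type) [Fintype J] [Fintype κ] [DecidableEq κ]
      (f : MultilinearMap ℚ (fun _ : κ => J → E) ℚ), IsDeRhamBetti P (fun v => f v) →
        (fun v => f v) ∈ Submodule.span ℚ (pairForms E J κ) := by
  classical
  by_cases hS : HasSmallRelation P
  · exact Or.inl hS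
  · right
    intro J κ _ _ _ f hf
    obtain ⟨b, hb, hbf⟩ := hf
    let p : Emb (fun _ : Unit => E) → ℂ := fun x => P.per x.2
    have hbot : relI p (fun x => P.ne_zero x.2) = ⊥ := by
      apply relI_dichotomy hE
      intro S h1 h2
      by_contra hall
      push Not at hall
      exact hS ⟨S, h1, h2, fun σ => hall σ⟩
    exact mainK3 p (fun x => P.ne_zero x.2) hbot (fun x => P.polarization x.2) f b hb hbf

end Pool.Agent.Results.MP_f11a48_ag.CMRankOne
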