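import Mathlib
import Pool.Agent.H868R3.GPD.Hom

/-!
# Rational subtorsors of the period torsor of abelian varieties with abelian CM field
-/

set_option linter.unusedSectionVars false
set_option linter.unusedVariables false

namespace Pool.Agent.Results.MP_f11a48_ag.RationalSubtorsors

open NumberField Pool.Agent.H204R3.CM Pool.Agent.H868R3.GPC Pool.Agent.H868R3.GPD

/-- Whenever the types of two eigenclasses in the cohomology `H¹` of abelian varieties with complex
multiplication by `L` are different, the periods of some pair of conjugates of these classes are
not proportional over the algebraic numbers. -/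
def HomCase {L : Type} [Field L] [NumberField L] (P : Periods L) : Prop :=
  ∀ x y, typ x ≠ typ y → ∃ τ : L ≃ₐ[ℚ] L, ¬ IsAlgebraic ℚ (P.per (rot x τ) / P.per (rot y τ))

/-- **Rational subtorsors.** Let `L` be a CM field which is an abelian extension of the rational
numbers. A monomial in the periods of the abelian varieties with complex multiplication by `L` and
in `2πi` takes algebraic values at the period point, together with all its conjugates under the
Galois group, if and only if it is trivial on the Mumford-Tate group. (So the period point is not
contained in a torsor, defined over the rational numbers, under a proper subtorus of the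
Mumford-Tate group.) -/
theorem result (L : Type) [Field L] [NumberField L] [IsCMField L] [IsGalois ℚ L]
    (hab : ∀ σ τ : L ≃ₐ[ℚ] L, σ * τ = τ * σ) (P : Periods L) (h1 : HomCase P)
    (A : Type) [Fintype A] (s : A → CMType L × (L →+* ℂ)) (ε : A → ℤ) (k : ℤ) :
    (∀ τ : L ≃ₐ[ℚ] L, IsAlgebraic ℚ
      ((∏ l, P.per (rot (s l) τ) ^ ε l) / (2 * Real.pi * Complex.I) ^ k)) ↔
    ∀ σ : L ≃ₐ[ℚ] L, ∑ l, ε l * typ (s l) σ = k := by
  constructor
  · intro h σ
    exact key hab P h1 s ε k (weight_eq hab P s ε k h) h σ
  · intro h τ
    exact P.monomial (fun l => rot (s l) τ) ε k (fun σ => h (τ * σ))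

end Pool.Agent.Results.MP_f11a48_ag.RationalSubtorsors
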